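import Mathlib
import Pool.Agent.H388SL.Fin

/-!
# Lehmer's problem: a lower bound that is polynomial in the number of monomials

Let `F` be a nonzero integer polynomial with `k` nonzero coefficients and let `f` be a divisor of
`F` in `ℤ[X]` none of whose complex zeros is `0` or a root of unity.  Then
`M(f) ^ deg F ≥ exp (c * deg f / (k ^ 2 * (log (2 k)) ^ 4))` with an absolute constant `c > 0`.
For `f = F` this is `M(f) ≥ exp (c / (k ^ 2 * (log (2 k)) ^ 4))`.

Method: an energy inequality (positive definiteness of `- log |1 - t b conj(b')|`) for the conjugates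
of an algebraic unit.  Applied to the conjugates of `z` and of `z ^ p` (`p` prime) it gives
Dobrowolski's theorem; applied to one number `β` it bounds the mean of the conjugates of `β`.
A relation with `k` terms forces, through a Gram matrix, the conjugates of some power `β = z ^ m`
with `1 ≤ m ≤ deg F` to have a mean of size at least `1 / (2 k)`.
-/

set_option autoImplicit false

open Polynomial

namespace Pool.Agent.Results.MP_7ab245_nt.FewMonomials

theorem result :
    ∃ c : ℝ, 0 < c ∧ ∀ f F : ℤ[X], F ≠ 0 → f ∣ F →
      (∀ z : ℂ, aeval z f = 0 → z ≠ 0 ∧ ∀ n : ℕ, 0 < n → z ^ n ≠ 1) →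
      Real.exp (c * f.natDegree /
          ((F.support.card : ℝ) ^ 2 * (Real.log (2 * F.support.card)) ^ 4)) ≤
        ((f.map (Int.castRingHom ℂ)).mahlerMeasure) ^ F.natDegree := by
  obtain ⟨c, hc, h⟩ := Pool.Agent.H388SL.main_log
  refine ⟨c, hc, ?_⟩
  intro f F hF hfF hroot
  have h1 := h f F hF hfF hroot
  have hf0 : f ≠ 0 := by
    rintro rfl
    exact hF (zero_dvd_iff.mp hfF)
  have hpos : 0 < Pool.Agent.H388SL.MM f := Pool.Agent.H388SL.MM_pos hf0
  have h2 := Real.exp_le_exp.mpr h1
  refine h2.trans (le_of_eq ?_)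
  rw [Real.exp_nat_mul, Real.exp_log hpos]
  rfl

end Pool.Agent.Results.MP_7ab245_nt.FewMonomials
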