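import Mathlib
import Pool.Agent.H904L2.Final

/-!
# The quadratic mean form of Lehmer's inequality

For every integer polynomial `f` of degree `n` with Mahler measure greater than one, leading
coefficient `a` and complex zeros `α_1, ..., α_n`,

  `1 / 640 ≤ (log |a|)^2 + n * ∑ i, (log⁺ |α_i|)^2`.

This is the `L^2` case of the `L^p` Lehmer conjecture (Lehmer's problem is `p = 1`, the
Schinzel-Zassenhaus conjecture, proved by Dimitrov in 2019, is `p = ∞`).

Method: Dimitrov's power series `√(P_2 P_4)` has integer coefficients; its Hankel determinants are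
bounded through a weighted energy inequality in the plane, with a test function adapted to the
individual heights of the spikes of the hedgehog, and Kronecker's rationality criterion.
-/

set_option autoImplicit false

open Polynomial

namespace Pool.Agent.Results.MP_7ab245_nt.L2Lehmer

theorem result (f : ℤ[X]) (hf : 1 < (f.map (Int.castRingHom ℂ)).mahlerMeasure) :
    (1 : ℝ) / 640 ≤ (Real.log |(f.leadingCoeff : ℝ)|) ^ 2 + (f.natDegree : ℝ) *
      ((f.map (Int.castRingHom ℂ)).roots.map fun z => (Real.posLog ‖z‖) ^ 2).sum := by
  have hf0 : f ≠ 0 := by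
    rintro rfl
    simp at hf
    linarith
  have hlc : f.leadingCoeff ≠ 0 := leadingCoeff_ne_zero.2 hf0
  have hsum : 0 ≤ ((f.map (Int.castRingHom ℂ)).roots.map fun z => (Real.posLog ‖z‖) ^ 2).sum := by
    apply Multiset.sum_nonneg
    intro x hx
    obtain ⟨z, -, rfl⟩ := Multiset.mem_map.1 hx
    positivity
  by_cases habs : |f.leadingCoeff| = 1
  · -- the monic case up to sign
    have key : ∀ g : ℤ[X], g.Monic → 1 < (g.map (Int.castRingHom ℂ)).mahlerMeasure →
        (1 : ℝ) / 640 ≤ (g.natDegree : ℝ) *
          ((g.map (Int.castRingHom ℂ)).roots.map fun z => (Real.posLog ‖z‖) ^ 2).sum := by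
      intro g hg hM
      have h1 := H904L2.main g hg hM
      have hd : 0 < g.natDegree := by
        rcases Nat.eq_zero_or_pos g.natDegree with h | h
        · exfalso
          have hg1 : g = 1 := by
            rw [eq_C_of_natDegree_eq_zero h]
            have := hg.coeff_natDegree
            rw [h] at this
            rw [this]
            simp
          rw [hg1] at hM
          simp at hM
        · exact h
      have hd' : (0 : ℝ) < g.natDegree := by exact_mod_cast hd
      calc (1 : ℝ) / 640 = (g.natDegree : ℝ) * (1 / (640 * (g.natDegree : ℝ))) := by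
            field_simp
        _ ≤ _ := mul_le_mul_of_nonneg_left h1 hd'.le
    have hlog : (Real.log |(f.leadingCoeff : ℝ)|) ^ 2 = 0 := by
      have : |(f.leadingCoeff : ℝ)| = 1 := by exact_mod_cast habs
      rw [this]
      simp
    rw [hlog, zero_add]
    rcases (abs_eq (by norm_num : (0:ℤ) ≤ 1)).1 habs with h | h
    · exact key f h hf
    · have hneg : (-f).Monic := by
        rw [Monic, leadingCoeff_neg, h]
        norm_num
      have hmap : (-f).map (Int.castRingHom ℂ) = -(f.map (Int.castRingHom ℂ)) := by
        rw [Polynomial.map_neg]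
      have h1 := key (-f) hneg (by
        rw [hmap]
        have : (-(f.map (Int.castRingHom ℂ))).mahlerMeasure =
            (f.map (Int.castRingHom ℂ)).mahlerMeasure := by
          rw [← neg_one_mul, mahlerMeasure_mul]
          have : (-1 : ℂ[X]) = C (-1) := by simp
          rw [this, mahlerMeasure_const]
          simp
        rw [this]
        exact hf)
      rw [hmap, natDegree_neg, roots_neg] at h1
      exact h1
  · -- a leading coefficient of absolute value at least two
    have h2 : (2 : ℤ) ≤ |f.leadingCoeff| := by
      have h3 : 0 < |f.leadingCoeff| := abs_pos.2 hlc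
      omega
    have h3 : (2 : ℝ) ≤ |(f.leadingCoeff : ℝ)| := by exact_mod_cast h2
    have h4 : Real.log 2 ≤ Real.log |(f.leadingCoeff : ℝ)| := Real.log_le_log (by norm_num) h3
    have h5 : (0.69 : ℝ) < Real.log 2 := by
      have := Real.log_two_gt_d9
      linarith
    have h6 : 0 ≤ (f.natDegree : ℝ) *
        ((f.map (Int.castRingHom ℂ)).roots.map fun z => (Real.posLog ‖z‖) ^ 2).sum :=
      mul_nonneg (Nat.cast_nonneg _) hsum
    nlinarith

end Pool.Agent.Results.MP_7ab245_nt.L2Lehmer
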