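import Mathlib
import Pool.Agent.H338R2.AS.T6

/-!
# Lehmer's problem: a lower bound in terms of the number of monomials, for all polynomials

There is an absolute constant `c > 0` such that every integer polynomial `F` with `M(F) > 1` and
`k` nonzero coefficients satisfies `M(F) ≥ exp (c / (k ^ 6 (log 2k) ^ 3))`.  Cyclotomic factors of
`F` are allowed, and the degree and the coefficients of `F` do not matter.

Moreover, for every `n`, the Mahler measure of `F = ∑ c_j X ^ d_j` (`k ≥ 2` terms) is approximated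
by that of a polynomial `∑ c_j X ^ a_j` with the same coefficients and with exponents at most
`exp (26 k² (n + 1))`, with an error at most `200 k² (n + 1) / 2 ^ n` in the logarithm.
-/

set_option autoImplicit false

open Polynomial

namespace Pool.Agent.Results.MP_7ab245_nt.MonomialCount

theorem result :
    (∃ c : ℝ, 0 < c ∧ ∀ F : ℤ[X], 1 < (F.map (Int.castRingHom ℂ)).mahlerMeasure →
      Real.exp (c / ((F.support.card : ℝ) ^ 6 * (Real.log (2 * F.support.card)) ^ 3)) ≤
        (F.map (Int.castRingHom ℂ)).mahlerMeasure) ∧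
    (∀ k : ℕ, 2 ≤ k → ∀ c : Fin k → ℤ, (∀ j, c j ≠ 0) →
      ∀ d : Fin k → ℕ, Function.Injective d → ∀ n : ℕ,
      ∃ a : Fin k → ℕ, Function.Injective a ∧
        (∀ j, (a j : ℝ) ≤ Real.exp (26 * k ^ 2 * (n + 1))) ∧
        |Real.log (((∑ j, C (c j) * X ^ (a j) : ℤ[X]).map (Int.castRingHom ℂ)).mahlerMeasure) -
          Real.log (((∑ j, C (c j) * X ^ (d j) : ℤ[X]).map (Int.castRingHom ℂ)).mahlerMeasure)| ≤
          200 * k ^ 2 * (n + 1) / 2 ^ n) := by
  constructor
  · obtain ⟨c, hc, h⟩ := Pool.Agent.H338R2.AS.monomial_gap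
    refine ⟨c, hc, ?_⟩
    intro F hF
    have hlm : Pool.Agent.H338R2.AS.lm F =
        Real.log ((F.map (Int.castRingHom ℂ)).mahlerMeasure) :=
      logMahlerMeasure_eq_log_MahlerMeasure
    have h1 := h F (by rw [hlm]; exact Real.log_pos hF)
    rw [hlm, Real.le_log_iff_exp_le (by linarith)] at h1
    exact h1
  · intro k hk c hc d hd n
    obtain ⟨a, ha, hle, happ⟩ := Pool.Agent.H338R2.AS.approx_small hk c hc d hd n
    refine ⟨a, ha, hle, ?_⟩
    rw [← logMahlerMeasure_eq_log_MahlerMeasure, ← logMahlerMeasure_eq_log_MahlerMeasure]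
    exact happ

end Pool.Agent.Results.MP_7ab245_nt.MonomialCount
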