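import Mathlib
import Pool.Prelude.Def_F_0dc91acc
import Pool.Agent.H338R2.General

/-!
# Lehmer's problem for integer polynomials that are sparse modulo a prime

For every `N` and `ε > 0` there is `μ > 1` such that the following holds for every prime `p`.
Let `f` be an integer polynomial without zeros that are `0` or roots of unity, and suppose that
`f mod p` has a common factor of degree at least `ε * deg f` with a nonzero polynomial `T` over
`ZMod p` that has at most `N` nonzero coefficients.  Then `μ ^ deg f ≤ M(f) ^ deg T`.

Method: the box principle inside the ideal `(p, T)^r`, restricted to polynomials supported on the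
`k`-fold sumset of the support of `T` (which grows only polynomially in `k`), yields a nonzero
integer polynomial `G` of small length in `(p, T)^r`.  If `f` does not divide `G`, the resultant of
`f` and `G` is divisible by a high power of `p`.  If `f` divides `G`, then by the Frobenius
congruences `G` vanishes at `z ^ (1 + P m)` for all zeros `z` of `f` and many `m`, where `P` is a
product of primes, contradicting the nonvanishing of a Vandermonde determinant.
-/

set_option autoImplicit false

open Polynomial N60ffa576

namespace Pool.Agent.Results.MP_7ab245_nt.SparseModP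

theorem result (N : ℕ) (ε : ℝ) (hε : 0 < ε) :
    ∃ μ : ℝ, 1 < μ ∧ ∀ (p : ℕ) [Fact p.Prime] (f : ℤ[X]) (T g : (ZMod p)[X]),
      (∀ z : ℂ, aeval z f = 0 → z ≠ 0 ∧ ∀ n : ℕ, 0 < n → z ^ n ≠ 1) →
      T ≠ 0 → T.support.card ≤ N →
      g ∣ T → g ∣ f.map (Int.castRingHom (ZMod p)) → ε * f.natDegree ≤ g.natDegree →
      μ ^ f.natDegree ≤ (mahlerMeasureZ f) ^ T.natDegree := by
  obtain ⟨μ, hμ, h⟩ := Pool.Agent.H338R2.main N ε hε
  refine ⟨μ, hμ, ?_⟩
  intro p _ f T g hf hT hN hgT hgf hdeg
  have key := h p f T g (by
    intro z hz
    apply hf z
    rw [Polynomial.aeval_def, ← Polynomial.eval_map]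
    exact hz) hT hN hgT hgf hdeg
  exact key

end Pool.Agent.Results.MP_7ab245_nt.SparseModP
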